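import Mathlib

set_option autoImplicit false

namespace Pool.Agent.Results.MP_06621a_co.MaximumPalindromicSubsequences

universe v

/-- The number of distinct nonempty palindromes occurring as scattered subwords of `w`. -/
noncomputable def SP {A : Type v} (w : List A) : ℕ :=
  {p : List A | p ≠ [] ∧ p.Sublist w ∧ p.reverse = p}.ncard

/-- The number of distinct letters of `w`. -/
noncomputable def alph {A : Type v} (w : List A) : ℕ := {a : A | a ∈ w}.ncard

/-- `M(n) = 3 * 2 ^ (⌈n/2⌉ - 1) - 2` for odd `n` and `2 ^ (n/2 + 1) - 2` for even `n`. -/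
def M (n : ℕ) : ℕ := if n % 2 = 1 then 3 * 2 ^ ((n + 1) / 2 - 1) - 2 else 2 ^ (n / 2 + 1) - 2

/-! ### The numbers `E n = M n + 2` -/

/-- `E n = M n + 2` -/
def E : ℕ → ℕ
  | 0 => 2
  | 1 => 3
  | n + 2 => 2 * E n

theorem E_even (k : ℕ) : E (2 * k) = 2 ^ (k + 1) := by
  induction k with
  | zero => rfl
  | succ k ih =>
    rw [show 2 * (k + 1) = 2 * k + 2 by ring, E, ih]
    ring

theorem E_odd (k : ℕ) : E (2 * k + 1) = 3 * 2 ^ k := by
  induction k with
  | zero => rfl
  | succ k ih =>
    rw [show 2 * (k + 1) + 1 = 2 * k + 1 + 2 by ring, E, ih]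
    ring

theorem M_eq (n : ℕ) : M n + 2 = E n := by
  rcases Nat.even_or_odd' n with ⟨k, rfl | rfl⟩
  · rw [E_even, M, if_neg (by omega)]
    rw [show 2 * k / 2 = k by omega]
    have : 2 ≤ 2 ^ (k + 1) := by
      calc 2 = 2 ^ 1 := rfl
        _ ≤ 2 ^ (k + 1) := Nat.pow_le_pow_right (by norm_num) (by omega)
    omega
  · rw [E_odd, M, if_pos (by omega)]
    rw [show (2 * k + 1 + 1) / 2 - 1 = k by omega]
    have : 1 ≤ 2 ^ k := Nat.one_le_two_pow
    omega

theorem E_add_two_mul (n k : ℕ) : E (n + 2 * k) = 2 ^ k * E n := by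
  induction k with
  | zero => simp
  | succ k ih =>
    rw [show n + 2 * (k + 1) = n + 2 * k + 2 by ring, E, ih]
    ring

theorem E_ge (n : ℕ) : n + 2 ≤ E n := by
  induction n using Nat.strong_induction_on with
  | _ n ih =>
    match n with
    | 0 => exact le_rfl
    | 1 => exact le_rfl
    | n + 2 =>
      have := ih n (by omega)
      rw [E]
      omega

theorem E_ge_strict {n : ℕ} (hn : 3 ≤ n) : n + 3 ≤ E n := by
  match n, hn with
  | n + 2, hn =>
    have := E_ge n
    rw [E]
    omega

theorem E_ratio (n : ℕ) : 4 * E n ≤ 3 * E (n + 1) := by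
  induction n using Nat.strong_induction_on with
  | _ n ih =>
    match n with
    | 0 => decide
    | 1 => decide
    | n + 2 =>
      have := ih n (by omega)
      rw [show n + 2 + 1 = n + 1 + 2 by ring, E, E]
      omega

/-- The convexity inequality. -/
theorem E_convex_aux (L d : ℕ) : 2 ^ (d + 1) * E L ≤ E (L + d) * (2 ^ d + 1) := by
  rcases Nat.even_or_odd' d with ⟨e, rfl | rfl⟩
  · rw [E_add_two_mul]
    have hx : 1 ≤ 2 ^ e := Nat.one_le_two_pow
    have h1 : 2 ^ (2 * e + 1) = 2 * (2 ^ e * 2 ^ e) := by ring
    have h2 : 2 ^ (2 * e) = 2 ^ e * 2 ^ e := by ring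
    rw [h1, h2]
    generalize 2 ^ e = x at hx ⊢
    have h3 : 2 * x ≤ x * x + 1 := by
      obtain ⟨y, rfl⟩ : ∃ y, x = y + 1 := ⟨x - 1, by omega⟩
      ring_nf
      nlinarith
    calc 2 * (x * x) * E L = (2 * x) * (x * E L) := by ring
      _ ≤ (x * x + 1) * (x * E L) := Nat.mul_le_mul_right _ h3
      _ = x * E L * (x * x + 1) := by ring
  · rw [show L + (2 * e + 1) = L + 1 + 2 * e by ring, E_add_two_mul]
    have hx : 1 ≤ 2 ^ e := Nat.one_le_two_pow
    have h1 : 2 ^ (2 * e + 1 + 1) = 4 * (2 ^ e * 2 ^ e) := by ring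
    have h2 : 2 ^ (2 * e + 1) = 2 * (2 ^ e * 2 ^ e) := by ring
    rw [h1, h2]
    have h4 := E_ratio L
    generalize 2 ^ e = x at hx ⊢
    have h3 : 3 * x ≤ 2 * (x * x) + 1 := by
      obtain ⟨y, rfl⟩ : ∃ y, x = y + 1 := ⟨x - 1, by omega⟩
      nlinarith
    have h5 : 3 * (4 * (x * x) * E L) ≤ 3 * (x * E (L + 1) * (2 * (x * x) + 1)) := by
      calc 3 * (4 * (x * x) * E L) = (3 * x) * x * (4 * E L) := by ring
        _ ≤ (2 * (x * x) + 1) * x * (3 * E (L + 1)) :=
            Nat.mul_le_mul (Nat.mul_le_mul_right _ h3) h4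
        _ = 3 * (x * E (L + 1) * (2 * (x * x) + 1)) := by ring
    omega

theorem E_convex_le {n L α β : ℕ} (h : n = L + 2 + α + β) (hab : α ≤ β) :
    2 * (E L : ℚ) ≤ E n * ((1 / 2) ^ (α + 1) + (1 / 2) ^ (β + 1)) := by
  obtain ⟨d, rfl⟩ : ∃ d, β = α + d := ⟨β - α, by omega⟩
  have hn : n = L + d + 2 * (α + 1) := by omega
  have h1 : (E n : ℚ) = 2 ^ (α + 1) * E (L + d) := by
    rw [hn, E_add_two_mul]
    push_cast
    ring
  have h2 := E_convex_aux L d
  have h3 : (2 : ℚ) ^ (d + 1) * E L ≤ E (L + d) * (2 ^ d + 1) := by exact_mod_cast h2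
  rw [h1]
  have e1 : (2 : ℚ) ^ (α + 1) * E (L + d) * ((1 / 2) ^ (α + 1) + (1 / 2) ^ (α + d + 1)) =
      E (L + d) * (2 ^ d + 1) / 2 ^ d := by
    have e2 : (1 / 2 : ℚ) ^ (α + d + 1) = (1 / 2) ^ (α + 1) * (1 / 2) ^ d := by ring
    rw [e2, one_div, inv_pow, inv_pow]
    field_simp
  rw [e1, le_div_iff₀ (by positivity)]
  calc 2 * (E L : ℚ) * 2 ^ d = 2 ^ (d + 1) * E L := by ring
    _ ≤ _ := h3

theorem E_convex {n L α β : ℕ} (h : n = L + 2 + α + β) :
    2 * (E L : ℚ) ≤ E n * ((1 / 2) ^ (α + 1) + (1 / 2) ^ (β + 1)) := by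
  rcases le_total α β with hab | hab
  · exact E_convex_le h hab
  · rw [add_comm ((1 / 2 : ℚ) ^ (α + 1))]
    exact E_convex_le (by omega) hab

/-- the sum of `2^{-(x+1)}` over a set of `t` natural numbers is at most `1 - 2^{-t}` -/
theorem sum_half_le (s : Finset ℕ) :
    ∑ x ∈ s, (1 / 2 : ℚ) ^ (x + 1) ≤ 1 - (1 / 2) ^ s.card := by
  induction s using Finset.induction_on_max with
  | empty => simp
  | insert a s hs ih =>
    have ha : a ∉ s := fun h => lt_irrefl _ (hs a h)
    rw [Finset.sum_insert ha, Finset.card_insert_of_notMem ha]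
    have hcard : s.card ≤ a := by
      have : s ⊆ Finset.range a := fun x hx => Finset.mem_range.2 (hs x hx)
      simpa using Finset.card_le_card this
    have h1 : (1 / 2 : ℚ) ^ (a + 1) ≤ (1 / 2) ^ (s.card + 1) :=
      pow_le_pow_of_le_one (by norm_num) (by norm_num) (by omega)
    have h2 : (1 / 2 : ℚ) ^ s.card = 2 * (1 / 2) ^ (s.card + 1) := by ring
    rw [h2] at ih
    linarith

/-! ### Palindromic subsequences -/

section words

variable {A : Type v} [DecidableEq A]

/-- the finite set of palindromic subsequences (the empty one included) -/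
def PS (w : List A) : Finset (List A) := w.sublists.toFinset.filter fun p => p.reverse = p

theorem mem_PS {w p : List A} : p ∈ PS w ↔ p.Sublist w ∧ p.reverse = p := by
  simp [PS]

theorem SP_eq (w : List A) : SP w + 1 = (PS w).card := by
  have h1 : {p : List A | p ≠ [] ∧ p.Sublist w ∧ p.reverse = p} =
      (((PS w).erase [] : Finset (List A)) : Set (List A)) := by
    ext p
    simp only [Set.mem_ofPred_eq, Finset.coe_erase, Set.mem_sdiff, Finset.mem_coe, mem_PS,
      Set.mem_singleton_iff]
    tauto
  have h2 : [] ∈ PS w := mem_PS.2 ⟨List.nil_sublist _, rfl⟩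
  rw [SP, h1, Set.ncard_coe_finset, Finset.card_erase_add_one h2]

theorem alph_eq (w : List A) : alph w = w.toFinset.card := by
  have : {a : A | a ∈ w} = (w.toFinset : Set A) := by
    ext a
    simp
  rw [alph, this, Set.ncard_coe_finset]

theorem sublist_first {a : A} {p r t : List A} (ha : a ∉ p) (h : (a :: t).Sublist (p ++ a :: r)) :
    t.Sublist r := by
  induction p with
  | nil => exact List.cons_sublist_cons.1 h
  | cons x p ih =>
    have hx : a ≠ x := fun hh => ha (by rw [hh]; exact List.mem_cons_self)
    apply ih fun hh => ha (List.mem_cons_of_mem _ hh)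
    rw [List.cons_append] at h
    cases h with
    | cons _ h' => exact h'
    | cons_cons _ h' => exact absurd rfl hx

theorem sublist_last {a : A} {p r t : List A} (ha : a ∉ p)
    (h : (t ++ [a]).Sublist (r ++ a :: p)) : t.Sublist r := by
  have h1 : (a :: t.reverse).Sublist (p.reverse ++ a :: r.reverse) := by
    have := h.reverse
    simpa using this
  have h2 := sublist_first (by simpa using ha) h1
  exact List.reverse_sublist.1 h2

/-- a letter occurring at least twice: first and last occurrence -/
theorem exists_decomp {w : List A} {a : A} (h : 2 ≤ w.count a) :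
    ∃ p r q : List A, w = p ++ a :: (r ++ a :: q) ∧ a ∉ p ∧ a ∉ q := by
  have h1 : a ∈ w := List.count_pos_iff.1 (by omega)
  obtain ⟨p, s, hps, hp⟩ := List.eq_append_cons_of_mem h1
  have hs : a ∈ s := by
    rw [hps, List.count_append, List.count_cons_self] at h
    have : w.count a = _ := rfl
    have hp0 : p.count a = 0 := List.count_eq_zero.2 hp
    apply List.count_pos_iff.1
    omega
  have hs' : a ∈ s.reverse := List.mem_reverse.2 hs
  obtain ⟨q, r, hqr, hq⟩ := List.eq_append_cons_of_mem hs'
  refine ⟨p, r.reverse, q.reverse, ?_, hp, by simpa using hq⟩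
  have : s = r.reverse ++ a :: q.reverse := by
    have := congrArg List.reverse hqr
    simpa using this
  rw [hps, this]

/-- the set of repeated letters -/
def Rep (w : List A) : Finset A := w.toFinset.filter fun a => 2 ≤ w.count a

theorem mem_Rep {w : List A} {a : A} : a ∈ Rep w ↔ 2 ≤ w.count a := by
  rw [Rep, Finset.mem_filter, List.mem_toFinset]
  constructor
  · exact fun h => h.2
  · intro h
    exact ⟨List.count_pos_iff.1 (by omega), h⟩

theorem card_add_le (w : List A) : w.toFinset.card + (Rep w).card ≤ w.length := by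
  rw [← List.sum_toFinset_count_eq_length w]
  have h1 : w.toFinset.card + (Rep w).card =
      ∑ a ∈ w.toFinset, (1 + if 2 ≤ w.count a then 1 else 0) := by
    rw [Finset.sum_add_distrib, ← Finset.card_filter]
    simp [Rep]
  rw [h1]
  refine Finset.sum_le_sum fun a ha => ?_
  have : 1 ≤ w.count a := List.count_pos_iff.2 (List.mem_toFinset.1 ha)
  split_ifs with h <;> omega

/-- The main inequality. -/
theorem main (n : ℕ) : ∀ w : List A, w.length = n →
    ((PS w).card : ℚ) ≤ 1 + (w.toFinset.card - (Rep w).card) + E n -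
      E (n - 2 * (Rep w).card) := by
  induction n using Nat.strong_induction_on with
  | _ n ih =>
    intro w hw
    have hdec : ∀ a : A, ∃ x : List A × List A × List A, a ∈ Rep w →
        w = x.1 ++ a :: (x.2.1 ++ a :: x.2.2) ∧ a ∉ x.1 ∧ a ∉ x.2.2 := by
      intro a
      by_cases ha : a ∈ Rep w
      · obtain ⟨p, r, q, h⟩ := exists_decomp (mem_Rep.1 ha)
        exact ⟨(p, r, q), fun _ => h⟩
      · exact ⟨([], [], []), fun h => absurd h ha⟩
    choose x hx using hdec
    set t := (Rep w).card with ht
    -- lengths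
    have hlen : ∀ a ∈ Rep w, n = (x a).2.1.length + 2 + (x a).1.length + (x a).2.2.length := by
      intro a ha
      have := congrArg List.length (hx a ha).1
      simp only [List.length_append, List.length_cons] at this
      omega
    -- the inductive bound for the inner words
    have hinner : ∀ a ∈ Rep w, ((PS (x a).2.1).card : ℚ) ≤ E (x a).2.1.length - 1 := by
      intro a ha
      have hl := hlen a ha
      have h1 := ih (x a).2.1.length (by omega) (x a).2.1 rfl
      have h2 := card_add_le (x a).2.1
      have h3 : (Rep (x a).2.1).card ≤ (x a).2.1.toFinset.card := Finset.card_filter_le _ _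
      have h4 := E_ge ((x a).2.1.length - 2 * (Rep (x a).2.1).card)
      have h5 : ((x a).2.1.toFinset.card : ℚ) + 2 ≤
          E ((x a).2.1.length - 2 * (Rep (x a).2.1).card) + (Rep (x a).2.1).card := by
        have : (x a).2.1.toFinset.card + 2 ≤
          E ((x a).2.1.length - 2 * (Rep (x a).2.1).card) + (Rep (x a).2.1).card := by omega
        exact_mod_cast this
      linarith
    -- covering
    have hcover : PS w ⊆ ({[]} ∪ w.toFinset.image fun a => [a]) ∪
        (Rep w).biUnion fun a => (PS (x a).2.1).image fun p => a :: (p ++ [a]) := by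
      intro p hp
      obtain ⟨hp1, hp2⟩ := mem_PS.1 hp
      have hpal := List.Palindrome.of_reverse_eq hp2
      cases hpal with
      | nil => simp
      | singleton a =>
        simp only [Finset.mem_union, Finset.mem_image, List.mem_toFinset]
        exact Or.inl (Or.inr ⟨a, by simpa using hp1, rfl⟩)
      | @cons_concat a l hl =>
        have ha : a ∈ Rep w := by
          rw [mem_Rep]
          have := hp1.count_le a
          simp only [List.count_cons_self, List.count_append, List.count_nil] at this
          omega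
        refine Finset.mem_union_right _ (Finset.mem_biUnion.2 ⟨a, ha, ?_⟩)
        refine Finset.mem_image.2 ⟨l, mem_PS.2 ⟨?_, hl.reverse_eq⟩, rfl⟩
        obtain ⟨h1, h2, h3⟩ := hx a ha
        rw [h1] at hp1
        have h4 := sublist_first h2 hp1
        exact sublist_last h3 h4
    have hcard : (PS w).card ≤ 1 + w.toFinset.card + ∑ a ∈ Rep w, (PS (x a).2.1).card := by
      refine (Finset.card_le_card hcover).trans ?_
      refine (Finset.card_union_le _ _).trans ?_
      refine Nat.add_le_add ?_ ?_
      · refine (Finset.card_union_le _ _).trans ?_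
        exact Nat.add_le_add (by simp) Finset.card_image_le
      · refine Finset.card_biUnion_le.trans ?_
        exact Finset.sum_le_sum fun a _ => Finset.card_image_le
    have hcardQ : ((PS w).card : ℚ) ≤
        1 + w.toFinset.card + ∑ a ∈ Rep w, ((PS (x a).2.1).card : ℚ) := by
      exact_mod_cast hcard
    -- injectivity of the positions
    have hinj1 : Set.InjOn (fun a => (x a).1.length) (Rep w : Set A) := by
      intro a ha b hb hab
      have h1 : w[(x a).1.length]? = some a := by
        conv_lhs => rw [(hx a ha).1]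
        simp
      have h2 : w[(x b).1.length]? = some b := by
        conv_lhs => rw [(hx b hb).1]
        simp
      have hab' : (x a).1.length = (x b).1.length := hab
      rw [hab', h2] at h1
      exact (Option.some.inj h1).symm
    have hrev : ∀ a ∈ Rep w, w.reverse[(x a).2.2.length]? = some a := by
      intro a ha
      have h0 : w.reverse = (x a).2.2.reverse ++ a :: ((x a).2.1.reverse ++ a ::
          (x a).1.reverse) := by
        conv_lhs => rw [(hx a ha).1]
        simp
      rw [h0]
      have : (x a).2.2.length = (x a).2.2.reverse.length := by simp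
      rw [this]
      simp
    have hinj2 : Set.InjOn (fun a => (x a).2.2.length) (Rep w : Set A) := by
      intro a ha b hb hab
      have h1 := hrev a ha
      have h2 := hrev b hb
      have hab' : (x a).2.2.length = (x b).2.2.length := hab
      rw [hab', h2] at h1
      exact (Option.some.inj h1).symm
    have hs1 : ∑ a ∈ Rep w, (1 / 2 : ℚ) ^ ((x a).1.length + 1) ≤ 1 - (1 / 2) ^ t := by
      have h := sum_half_le ((Rep w).image fun a => (x a).1.length)
      rw [Finset.sum_image hinj1, Finset.card_image_of_injOn hinj1] at h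
      exact h
    have hs2 : ∑ a ∈ Rep w, (1 / 2 : ℚ) ^ ((x a).2.2.length + 1) ≤ 1 - (1 / 2) ^ t := by
      have h := sum_half_le ((Rep w).image fun a => (x a).2.2.length)
      rw [Finset.sum_image hinj2, Finset.card_image_of_injOn hinj2] at h
      exact h
    have hE : ∑ a ∈ Rep w, (2 * (E (x a).2.1.length : ℚ)) ≤ E n * (2 * (1 - (1 / 2) ^ t)) := by
      calc ∑ a ∈ Rep w, (2 * (E (x a).2.1.length : ℚ))
          ≤ ∑ a ∈ Rep w, (E n : ℚ) * ((1 / 2) ^ ((x a).1.length + 1) +
              (1 / 2) ^ ((x a).2.2.length + 1)) :=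
            Finset.sum_le_sum fun a ha => E_convex (hlen a ha)
        _ = (E n : ℚ) * (∑ a ∈ Rep w, (1 / 2 : ℚ) ^ ((x a).1.length + 1) +
              ∑ a ∈ Rep w, (1 / 2 : ℚ) ^ ((x a).2.2.length + 1)) := by
            rw [← Finset.mul_sum, Finset.sum_add_distrib]
        _ ≤ E n * (2 * (1 - (1 / 2) ^ t)) := by
            apply mul_le_mul_of_nonneg_left _ (by positivity)
            linarith
    rw [← Finset.mul_sum] at hE
    have hsumE : ∑ a ∈ Rep w, ((PS (x a).2.1).card : ℚ) ≤
        ∑ a ∈ Rep w, (E (x a).2.1.length : ℚ) - t := by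
      calc ∑ a ∈ Rep w, ((PS (x a).2.1).card : ℚ)
          ≤ ∑ a ∈ Rep w, ((E (x a).2.1.length : ℚ) - 1) := Finset.sum_le_sum hinner
        _ = _ := by rw [Finset.sum_sub_distrib]; simp [ht]
    -- E n / 2^t = E (n - 2 t)
    have h6 := card_add_le w
    have h7 : (Rep w).card ≤ w.toFinset.card := Finset.card_filter_le _ _
    have h8 : (E n : ℚ) * (1 / 2) ^ t = E (n - 2 * t) := by
      have h9 : n = (n - 2 * t) + 2 * t := by omega
      have h10 : E n = 2 ^ t * E (n - 2 * t) := by
        conv_lhs => rw [h9]
        exact E_add_two_mul _ _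
      rw [h10]
      push_cast
      rw [one_div, inv_pow]
      field_simp
    have h11 : (E n : ℚ) * (2 * (1 - (1 / 2) ^ t)) = 2 * (E n - E (n - 2 * t)) := by
      rw [← h8]; ring
    rw [h11] at hE
    linarith

theorem upper (w : List A) : SP w ≤ M w.length ∧
    (SP w = M w.length →
      (w.length % 2 = 1 → alph w = (w.length + 1) / 2) ∧
      (w.length % 2 = 0 → alph w = w.length / 2 ∨ alph w = w.length / 2 + 1)) := by
  have h1 := main w.length w rfl
  have h2 := card_add_le w
  have h3 : (Rep w).card ≤ w.toFinset.card := Finset.card_filter_le _ _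
  have h4 := E_ge (w.length - 2 * (Rep w).card)
  have h5 := SP_eq w
  have h6 := M_eq w.length
  have h7 : (PS w).card + E (w.length - 2 * (Rep w).card) + (Rep w).card ≤
      1 + w.toFinset.card + E w.length := by
    have : ((PS w).card : ℚ) + E (w.length - 2 * (Rep w).card) + (Rep w).card ≤
      1 + w.toFinset.card + E w.length := by linarith
    exact_mod_cast this
  refine ⟨by omega, fun heq => ?_⟩
  have h8 : w.length - 2 * (Rep w).card ≤ 2 := by
    by_contra hcon
    have := E_ge_strict (n := w.length - 2 * (Rep w).card) (by omega)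
    omega
  rw [alph_eq]
  omega

end words

/-! ### Attaining the maximum -/

/-- nested words -/
def Wd : ℕ → List ℕ
  | 0 => []
  | 1 => [1]
  | n + 2 => (n + 2) :: (Wd n ++ [n + 2])

theorem Wd_length (n : ℕ) : (Wd n).length = n := by
  induction n using Nat.strong_induction_on with
  | _ n ih =>
    match n with
    | 0 => rfl
    | 1 => rfl
    | n + 2 =>
      rw [Wd]
      simp [ih n (by omega)]

theorem Wd_le (n : ℕ) : ∀ c ∈ Wd n, c ≤ n := by
  induction n using Nat.strong_induction_on with
  | _ n ih =>
    match n with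
    | 0 => simp [Wd]
    | 1 => simp [Wd]
    | n + 2 =>
      intro c hc
      rw [Wd] at hc
      simp only [List.mem_cons, List.mem_append, List.not_mem_nil, or_false] at hc
      rcases hc with h | h | h
      · omega
      · have := ih n (by omega) c h
        omega
      · omega

theorem Wd_card (n : ℕ) : E n ≤ (PS (Wd n)).card + 1 := by
  induction n using Nat.strong_induction_on with
  | _ n ih =>
    match n with
    | 0 => decide
    | 1 => decide
    | n + 2 =>
      have h1 := ih n (by omega)
      have hnot : n + 2 ∉ Wd n := fun h => by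
        have := Wd_le n _ h
        omega
      have hsub : (PS (Wd n) ∪ (PS (Wd n)).image fun p => (n + 2) :: (p ++ [n + 2])) ∪
          {[n + 2]} ⊆ PS (Wd (n + 2)) := by
        intro p hp
        simp only [Finset.mem_union, Finset.mem_image, Finset.mem_singleton] at hp
        rw [mem_PS, Wd]
        rcases hp with (hp | ⟨q, hq, rfl⟩) | rfl
        · rw [mem_PS] at hp
          exact ⟨(hp.1.trans (List.sublist_append_left _ _)).cons _, hp.2⟩
        · rw [mem_PS] at hq
          refine ⟨(hq.1.append_right _).cons_cons _, ?_⟩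
          simp [hq.2]
        · refine ⟨?_, rfl⟩
          exact (List.nil_sublist _).cons_cons _
      have hmem : ∀ p ∈ PS (Wd n), n + 2 ∉ p := fun p hp h =>
        hnot ((mem_PS.1 hp).1.subset h)
      have hd1 : Disjoint (PS (Wd n)) ((PS (Wd n)).image fun p => (n + 2) :: (p ++ [n + 2])) := by
        rw [Finset.disjoint_left]
        intro p hp hp'
        obtain ⟨q, _, rfl⟩ := Finset.mem_image.1 hp'
        exact hmem _ hp List.mem_cons_self
      have hd2 : Disjoint (PS (Wd n) ∪ (PS (Wd n)).image fun p => (n + 2) :: (p ++ [n + 2]))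
          {[n + 2]} := by
        rw [Finset.disjoint_singleton_right, Finset.mem_union, not_or]
        refine ⟨fun h => hmem _ h List.mem_cons_self, ?_⟩
        intro h
        obtain ⟨q, _, hq⟩ := Finset.mem_image.1 h
        have := congrArg List.length hq
        simp at this
      have hinj : Function.Injective fun p : List ℕ => (n + 2) :: (p ++ [n + 2]) := by
        intro p q h
        simpa using h
      have h2 := Finset.card_le_card hsub
      rw [Finset.card_union_of_disjoint hd2, Finset.card_union_of_disjoint hd1,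
        Finset.card_image_of_injective _ hinj, Finset.card_singleton] at h2
      rw [E]
      omega

/-- **Q1 holds.** For every `n ≥ 1` the maximum of `SP(w)` over all words of length `n` (over
arbitrary alphabets) is `M(n)`, and a word of length `n` attains it only if its number `q` of
distinct letters is `⌈n/2⌉` for odd `n`, and `n/2` or `n/2 + 1` for even `n`. -/
theorem result (n : ℕ) (_hn : 1 ≤ n) :
    (∀ (A : Type v) (w : List A), w.length = n → SP w ≤ M n ∧
      (SP w = M n → (n % 2 = 1 → alph w = (n + 1) / 2) ∧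
        (n % 2 = 0 → alph w = n / 2 ∨ alph w = n / 2 + 1))) ∧
    (∃ w : List ℕ, w.length = n ∧ SP w = M n) := by
  classical
  refine ⟨fun A w hw => ?_, Wd n, Wd_length n, ?_⟩
  · subst hw
    exact upper w
  · have h1 := (upper (Wd n)).1
    rw [Wd_length] at h1
    have h2 := Wd_card n
    have h3 := SP_eq (Wd n)
    have h4 := M_eq n
    omega

end Pool.Agent.Results.MP_06621a_co.MaximumPalindromicSubsequences
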